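import Pool.Agent.H30.SL.Stm

/-! Crew SL, part EVA: eight relations from matrix units. -/

set_option autoImplicit false

namespace Pool.Agent.H50.SL

open Finset Pool.Agent.H30.SL

attribute [local instance 100] LieRing.ofAssociativeRing

/-- entry `(p, q)` of the iterated bracket of matrix units -/
def ent (z : Fin 3 × Fin 3) : List (Fin 3 × Fin 3) → Fin 3 → Fin 3 → ℤ
  | [], p, q => if z.1 = p ∧ z.2 = q then 1 else 0
  | m :: l, p, q => (if m.1 = p then ent z l m.2 q else 0) - (if m.2 = q then ent z l p m.1 else 0)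

/-- the nonzero entries -/
def supp (m : List (Fin 3 × Fin 3)) (z : Fin 3 × Fin 3) (p q : Fin 3) (s : ℤ) :
    List (List ℕ × ℤ) :=
  (List.range 6).permutations'.filterMap (fun y =>
    if ent z (y.map (fun j => m.getD j (0, 0))) p q = 0 then none
    else some (y, s * ent z (y.map (fun j => m.getD j (0, 0))) p q))

theorem lie_single {K : Type} [Field K] (a : Fin 3 × Fin 3) (X : Matrix (Fin 3) (Fin 3) K)
    (p q : Fin 3) : (⁅Matrix.single a.1 a.2 (1 : K), X⁆ : Matrix (Fin 3) (Fin 3) K) p q =
      (if a.1 = p then X a.2 q else 0) - (if a.2 = q then X p a.1 else 0) := by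
  rw [Ring.lie_def, Matrix.sub_apply]
  congr 1
  · rw [Matrix.mul_apply]
    simp only [Matrix.single_apply]
    by_cases h : a.1 = p
    · simp [h]
    · simp [h]
  · rw [Matrix.mul_apply]
    simp only [Matrix.single_apply]
    by_cases h : a.2 = q
    · simp [h]
    · simp [h]

theorem rn_ent {K : Type} [Field K] (A : ℕ → Matrix (Fin 3) (Fin 3) K) (μ : ℕ → Fin 3 × Fin 3)
    (z : Fin 3 × Fin 3) (X : Matrix (Fin 3) (Fin 3) K) (hX : X = Matrix.single z.1 z.2 1)
    (w : List ℕ) (hw : ∀ a ∈ w, A a = Matrix.single (μ a).1 (μ a).2 1) (p q : Fin 3) :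
    rn A w X p q = ((ent z (w.map μ) p q : ℤ) : K) := by
  induction w generalizing p q with
  | nil =>
    subst hX
    simp only [rn, List.foldr_nil, List.map_nil, ent, Matrix.single_apply]
    split_ifs <;> simp
  | cons a w ih =>
    have ih' := ih (fun b hb => hw b (List.mem_cons_of_mem _ hb))
    have h1 : rn A (a :: w) X = ⁅A a, rn A w X⁆ := rfl
    rw [h1, hw a (by simp), lie_single, List.map_cons, ent]
    rw [ih', ih']
    push_cast
    split_ifs <;> simp

theorem filt {K : Type} [Field K] (e : List ℕ → ℤ) (g : List ℕ → K) (s : ℤ)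
    (L : List (List ℕ)) :
    ((L.filterMap (fun y => if e y = 0 then none else some (y, s * e y))).map
      (fun x => (x.2 : K) * g x.1)).sum = (s : K) * (L.map (fun y => g y * (e y : K))).sum := by
  induction L with
  | nil => simp
  | cons y L ih =>
    by_cases h : e y = 0
    · rw [List.filterMap_cons_none (by simp [h]), ih]
      simp [h]
    · rw [List.filterMap_cons_some (b := (y, s * e y)) (by simp [h]), List.map_cons, List.sum_cons,
        ih, List.map_cons, List.sum_cons]
      push_cast
      ring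

theorem idx {t : List ℕ} (ht : t.Perm (List.range 6)) {j : ℕ} (hj : j < 6) :
    t.idxOf (t.getD j 0) = j := by
  have hl : t.length = 6 := by rw [ht.length_eq, List.length_range]
  have hn : t.Nodup := ht.nodup_iff.2 List.nodup_range
  rw [List.getD_eq_getElem t 0 (by omega)]
  exact hn.idxOf_getElem j (by omega)

theorem eva_one {K : Type} [Field K] (m : List (Fin 3 × Fin 3)) (z : Fin 3 × Fin 3) (p q : Fin 3)
    (s : ℤ) (r : List (List ℕ × ℤ)) (hr : (supp m z p q s).Perm r) (c : List ℕ → K)
    (h : ∀ A : ℕ → Matrix (Fin 3) (Fin 3) K,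
      ∑ w ∈ (List.range 6).permutations.toFinset, c w • rn A w (A 6) = 0)
    (t : List ℕ) (ht : t.Perm (List.range 6)) :
    (r.map (fun y => (y.2 : K) * c (Pool.Agent.H30.SL.cmp t y.1))).sum = 0 := by
  classical
  have hl : t.length = 6 := by rw [ht.length_eq, List.length_range]
  let μ : ℕ → Fin 3 × Fin 3 := fun i => m.getD (t.idxOf i) (0, 0)
  let A : ℕ → Matrix (Fin 3) (Fin 3) K := fun i =>
    if i = 6 then Matrix.single z.1 z.2 1 else Matrix.single (μ i).1 (μ i).2 1
  have hA6 : A 6 = Matrix.single z.1 z.2 1 := by simp [A]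
  have hP : (List.range 6).permutations.toFinset = (List.range 6).permutations'.toFinset := by
    ext w
    rw [List.mem_toFinset, List.mem_toFinset, List.mem_permutations, List.mem_permutations']
  have hnd : (List.range 6).permutations'.Nodup :=
    (List.permutations_perm_permutations' (List.range 6)).nodup_iff.1
      (List.nodup_permutations _ List.nodup_range)
  have hmem : ∀ {y : List ℕ}, y.Perm (List.range 6) → ∀ j ∈ y, j < 6 := by
    intro y hy j hj
    exact List.mem_range.1 (hy.mem_iff.1 hj)
  have hcmp : ∀ {y : List ℕ}, y.Perm (List.range 6) → (Pool.Agent.H30.SL.cmp t y).Perm (List.range 6) := by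
    intro y hy
    have h1 : (List.range 6).map (fun j => t.getD j 0) = t := by
      apply List.ext_getElem
      · rw [List.length_map, List.length_range, hl]
      · intro i h1 h2
        rw [List.getElem_map, List.getElem_range, List.getD_eq_getElem t 0 h2]
    have h2 : (Pool.Agent.H30.SL.cmp t y).Perm ((List.range 6).map (fun j => t.getD j 0)) := hy.map _
    rw [h1] at h2
    exact h2.trans ht
  have hback : ∀ {y : List ℕ}, y.Perm (List.range 6) → (Pool.Agent.H30.SL.cmp t y).map (fun v => t.idxOf v) = y := by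
    intro y hy
    unfold Pool.Agent.H30.SL.cmp
    rw [List.map_map]
    conv_rhs => rw [← List.map_id y]
    apply List.map_congr_left
    intro j hj
    exact idx ht (hmem hy j hj)
  -- entry of the hypothesis
  have h1 := congrFun (congrFun (h A) p) q
  rw [Matrix.sum_apply] at h1
  have h2 : ∑ w ∈ (List.range 6).permutations'.toFinset,
      c w * ((ent z (w.map μ) p q : ℤ) : K) = 0 := by
    rw [← hP]
    refine Eq.trans ?_ h1
    apply Finset.sum_congr rfl
    intro w hw
    rw [List.mem_toFinset, List.mem_permutations] at hw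
    rw [Matrix.smul_apply, smul_eq_mul, rn_ent A μ z (A 6) hA6 w]
    intro a ha
    have : a < 6 := hmem hw a ha
    simp [A, this.ne]
  -- reindex
  have h3 : ∑ w ∈ (List.range 6).permutations'.toFinset, c w * ((ent z (w.map μ) p q : ℤ) : K) =
      ∑ y ∈ (List.range 6).permutations'.toFinset,
        c (Pool.Agent.H30.SL.cmp t y) * ((ent z (y.map (fun j => m.getD j (0, 0))) p q : ℤ) : K) := by
    have hinj : Set.InjOn (Pool.Agent.H30.SL.cmp t) ((List.range 6).permutations'.toFinset : Set (List ℕ)) := by
      intro y hy y' hy' hyy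
      rw [Finset.mem_coe, List.mem_toFinset, List.mem_permutations'] at hy hy'
      rw [← hback hy, ← hback hy', hyy]
    have himg : (List.range 6).permutations'.toFinset.image (Pool.Agent.H30.SL.cmp t) =
        (List.range 6).permutations'.toFinset := by
      apply Finset.eq_of_subset_of_card_le
      · intro w hw
        obtain ⟨y, hy, rfl⟩ := Finset.mem_image.1 hw
        rw [List.mem_toFinset, List.mem_permutations'] at hy ⊢
        exact hcmp hy
      · rw [Finset.card_image_of_injOn hinj]
    conv_lhs => rw [← himg]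
    rw [Finset.sum_image hinj]
    apply Finset.sum_congr rfl
    intro y hy
    rw [List.mem_toFinset, List.mem_permutations'] at hy
    have h4 : (Pool.Agent.H30.SL.cmp t y).map μ = y.map (fun j => m.getD j (0, 0)) := by
      unfold Pool.Agent.H30.SL.cmp
      rw [List.map_map]
      apply List.map_congr_left
      intro j hj
      change m.getD (t.idxOf (t.getD j 0)) (0, 0) = m.getD j (0, 0)
      rw [idx ht (hmem hy j hj)]
    rw [h4]
  rw [h3, List.sum_toFinset _ hnd] at h2
  have h5 := filt (fun y => ent z (y.map (fun j => m.getD j (0, 0))) p q)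
    (fun y => c (Pool.Agent.H30.SL.cmp t y)) s (List.range 6).permutations'
  rw [h2, mul_zero] at h5
  rw [← (hr.map (fun y : List ℕ × ℤ => (y.2 : K) * c (Pool.Agent.H30.SL.cmp t y.1))).sum_eq]
  exact h5

theorem t_EVA : S_EVA := by
  intro K _ _ c h r hr t ht
  simp only [Rl, List.mem_cons, List.not_mem_nil, or_false] at hr
  rcases hr with rfl | rfl | rfl | rfl | rfl | rfl | rfl | rfl
  · exact eva_one [(1, 2), (1, 1), (0, 1), (0, 0), (0, 0), (1, 0)] (2, 1) 2 2 1 _ (by decide +kernel) c h t ht
  · exact eva_one [(1, 2), (0, 1), (0, 0), (0, 0), (1, 0), (2, 1)] (2, 2) 2 2 1 _ (by decide +kernel) c h t ht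
  · exact eva_one [(1, 2), (1, 1), (1, 1), (0, 1), (0, 0), (0, 0)] (2, 0) 2 2 1 _ (by decide +kernel) c h t ht
  · exact eva_one [(0, 0), (0, 0), (0, 1), (1, 1), (1, 1), (1, 2)] (2, 2) 0 2 1 _ (by decide +kernel) c h t ht
  · exact eva_one [(0, 2), (0, 0), (1, 0), (1, 1), (0, 1), (2, 0)] (2, 2) 2 2 1 _ (by decide +kernel) c h t ht
  · exact eva_one [(2, 2), (2, 2), (1, 2), (0, 1), (0, 0), (0, 0)] (1, 0) 1 2 1 _ (by decide +kernel) c h t ht
  · exact eva_one [(1, 2), (1, 1), (0, 1), (2, 2), (0, 0), (2, 0)] (0, 0) 1 1 (-1) _ (by decide +kernel) c h t ht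
  · exact eva_one [(1, 2), (2, 2), (0, 1), (2, 1), (0, 0), (1, 0)] (0, 0) 2 2 (-1) _ (by decide +kernel) c h t ht

end Pool.Agent.H50.SL
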